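import Pool.Agent.K4H21.PL.Defs

/-!
The fibres of a finite étale morphism on complex points are finite.
-/

set_option autoImplicit false

open CategoryTheory AlgebraicGeometry Limits TopologicalSpace

noncomputable section

namespace Pool.Agent.K4H21.PL

theorem pts_ext {X : Over (Sp ℂ)} (h : LocallyOfFiniteType X.hom) (x x' : Pts X)
    (e : x.left (IsLocalRing.closedPoint ℂ) = x'.left (IsLocalRing.closedPoint ℂ)) : x = x' := by
  apply Over.OverMorphism.ext
  exact ext_of_apply_closedPoint_eq X.hom (Over.w x) (Over.w x') e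

theorem finite_fibres {X Y : Var ℂ} (f : X ⟶ Y) (hf : FinEt f) (y : Pts Y.obj) :
    {x : Pts X.obj | (x ≫ f.hom : _ ⟶ _) = y}.Finite := by
  have h1 : IsFinite f.hom.left := hf.1
  have h2 : Smooth X.obj.hom := X.property.1
  have hfin : (f.hom.left ⁻¹' {y.left (IsLocalRing.closedPoint ℂ)}).Finite :=
    f.hom.left.finite_preimage_singleton _
  refine Set.Finite.of_injOn (f := fun x : Pts X.obj => x.left (IsLocalRing.closedPoint ℂ))
    ?_ ?_ hfin
  · intro x hx
    have e : x.left ≫ f.hom.left = y.left := congrArg (fun t => t.left) hx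
    show f.hom.left (x.left (IsLocalRing.closedPoint ℂ)) = y.left (IsLocalRing.closedPoint ℂ)
    rw [← e]
    exact (Scheme.Hom.comp_apply _ _ _).symm
  · intro x _ x' _ e
    exact pts_ext inferInstance x x' e

end Pool.Agent.K4H21.PL
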